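import Mathlib
import Pool.Agent.Results.MP_4681e4_al.AscendingChain

set_option autoImplicit false

namespace Pool.Agent.Results.MP_4681e4_al.AscendingHNN

open Multiplicative Pool.Agent.Results.MP_4681e4_al.AscendingChain

section Definitions

variable {G : Type} [Group G]

/-- `G` splits as an HNN extension over its subgroup `C`: there are a subgroup `H` of `G`
containing `C`, a second embedding `φ` of `C` in `H` (an isomorphism of `C` with a subgroup `B`
of `H`) and an element `t` of `G` with `t c t⁻¹ = φ c` for `c` in `C`, such that the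
homomorphism from the HNN extension of `H` (Mathlib's `HNNExtension`) to `G` which is the
inclusion on `H` and maps the stable letter to `t` is an isomorphism. -/
def SplitsHNN (C : Subgroup G) : Prop :=
  ∃ (H : Subgroup G) (B : Subgroup H) (φ : C.subgroupOf H ≃* B) (t : G)
    (h : ∀ a : C.subgroupOf H, t * H.subtype (a : H) = H.subtype (φ a : H) * t),
    C ≤ H ∧ Function.Bijective (HNNExtension.lift H.subtype t h)

end Definitions

section General

variable {G : Type} [Group G]

/-- A criterion for being an HNN extension. -/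
theorem splits_of (H C : Subgroup G) (t : G) (hC : C ≤ H)
    (hC' : ∀ c ∈ C, t * c * t⁻¹ ∈ H) (hgen : H ⊔ Subgroup.zpowers t = ⊤)
    (huniv : ∀ (X : Type) [Group X] (f : H →* X) (x : X),
      (∀ (c : G) (hc : c ∈ C), x * f ⟨c, hC hc⟩ = f ⟨t * c * t⁻¹, hC' c hc⟩ * x) →
      ∃ F : G →* X, (∀ a : H, F a = f a) ∧ F t = x) : SplitsHNN C := by
  let cj : C.subgroupOf H →* H :=
    { toFun := fun a => ⟨t * (a : H) * t⁻¹, hC' _ a.2⟩
      map_one' := by ext; simp
      map_mul' := by intro a b; ext; simp [mul_assoc] }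
  have hinj : Function.Injective cj := by
    intro a b hab
    have h1 := congrArg (fun x : H => (x : G)) hab
    change t * ((a : H) : G) * t⁻¹ = t * ((b : H) : G) * t⁻¹ at h1
    apply Subtype.ext
    apply Subtype.ext
    exact mul_left_cancel (mul_right_cancel h1)
  let φ : C.subgroupOf H ≃* cj.range := MonoidHom.ofInjective hinj
  have hφ : ∀ a : C.subgroupOf H, ((φ a : H) : G) = t * ((a : H) : G) * t⁻¹ := fun a => rfl
  have h : ∀ a : C.subgroupOf H, t * H.subtype (a : H) = H.subtype (φ a : H) * t := by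
    intro a
    rw [Subgroup.coe_subtype, hφ]
    group
  refine ⟨H, cj.range, φ, t, h, hC, ?_, ?_⟩
  · obtain ⟨F, hF1, hF2⟩ := huniv (HNNExtension H (C.subgroupOf H) cj.range φ)
      HNNExtension.of HNNExtension.t (by
        intro c hc
        exact HNNExtension.t_mul_of (φ := φ) (⟨⟨c, hC hc⟩, hc⟩ : C.subgroupOf H))
    have hid : F.comp (HNNExtension.lift H.subtype t h) = MonoidHom.id _ := by
      apply HNNExtension.hom_ext
      · ext x
        rw [MonoidHom.comp_apply, MonoidHom.comp_apply, HNNExtension.lift_of]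
        exact hF1 x
      · rw [MonoidHom.comp_apply, HNNExtension.lift_t]
        exact hF2
    intro x y hxy
    have h4 := congrArg F hxy
    have hx := DFunLike.congr_fun hid x
    have hy := DFunLike.congr_fun hid y
    exact (hx.symm.trans h4).trans hy
  · rw [← MonoidHom.range_eq_top, ← top_le_iff, ← hgen, sup_le_iff]
    refine ⟨fun a ha => ⟨HNNExtension.of ⟨a, ha⟩, ?_⟩, ?_⟩
    · rw [HNNExtension.lift_of]; rfl
    · rw [Subgroup.zpowers_le]
      exact ⟨HNNExtension.t, HNNExtension.lift_t _ _ _⟩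

end General

noncomputable section Example

/-- The group generated by `(τ, 0)` and `(δ, 1)`, a copy of `BS(1,2)` with its projection to the
integers. -/
abbrev D' : Subgroup (Equiv.Perm ℚ × Multiplicative ℤ) :=
  Subgroup.closure {(tau, 1), (delta, ofAdd 1)}

def etau : D' := ⟨(tau, 1), Subgroup.subset_closure (by simp)⟩
def edelta : D' := ⟨(delta, ofAdd 1), Subgroup.subset_closure (by simp)⟩

/-- The projection to the integers. -/
def deg : D' →* Multiplicative ℤ := (MonoidHom.snd _ _).comp D'.subtype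

/-- The projection to permutations of the rationals. -/
def prj : D' →* Equiv.Perm ℚ := (MonoidHom.fst _ _).comp D'.subtype

theorem deg_etau : deg etau = 1 := rfl
theorem deg_edelta : deg edelta = ofAdd 1 := rfl
theorem prj_etau : prj etau = tau := rfl
theorem prj_edelta : prj edelta = delta := rfl

/-- `t' 0 = 1`, `t' (n + 1)` is the translation by `2 ^ (-n)`. -/
def t' : ℕ → D'
  | 0 => 1
  | n + 1 => edelta⁻¹ ^ n * etau * edelta ^ n

theorem ext' {x y : D'} (h1 : prj x = prj y) (h2 : deg x = deg y) : x = y :=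
  Subtype.ext (Prod.ext h1 h2)

theorem prj_t (n : ℕ) : prj (t' n) = (t n : Equiv.Perm ℚ) := by
  cases n with
  | zero => rfl
  | succ n =>
    have : prj (t' (n + 1)) = prj (edelta⁻¹ ^ n * etau * edelta ^ n) := rfl
    rw [this, map_mul, map_mul, map_pow, map_pow, map_inv]
    rfl

theorem deg_t (n : ℕ) : deg (t' n) = 1 := by
  cases n with
  | zero => rfl
  | succ n =>
    have : deg (t' (n + 1)) = deg (edelta⁻¹ ^ n * etau * edelta ^ n) := rfl
    rw [this, map_mul, map_mul, map_pow, map_pow, map_inv, deg_etau]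
    simp

theorem t'_mem (n : ℕ) : t' n ∈ Subgroup.zpowers (t' (n + 1)) := by
  obtain ⟨j, hj⟩ := t_mem n
  refine ⟨j, ext' ?_ ?_⟩
  · rw [map_zpow, prj_t, prj_t, ← hj]; rfl
  · rw [map_zpow, deg_t, deg_t, one_zpow]

theorem t'_not_mem (n : ℕ) : t' (n + 1) ∉ Subgroup.zpowers (t' n) := by
  rintro ⟨j, hj⟩
  apply t_not_mem n
  refine ⟨j, Subtype.ext ?_⟩
  have h := congrArg prj hj
  rw [map_zpow, prj_t, prj_t] at h
  exact h

/-- The base group `ℤ × BS(1,2)`. -/
abbrev K : Type := Multiplicative ℤ × D'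

/-- The two embeddings of `ℤ`. -/
def j1 : Multiplicative ℤ →* K := MonoidHom.inl (Multiplicative ℤ) D'
def j2 : Multiplicative ℤ →* K :=
  (MonoidHom.inr (Multiplicative ℤ) D').comp (zpowersHom D' edelta)

theorem j1_inj : Function.Injective j1 := fun _ _ h => congrArg Prod.fst h

theorem deg_zpowersHom (m : Multiplicative ℤ) : deg (zpowersHom D' edelta m) = m := by
  rw [zpowersHom_apply, map_zpow, deg_edelta, ← ofAdd_zsmul]
  simp

theorem j2_inj : Function.Injective j2 := by
  intro x y h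
  have h1 : zpowersHom D' edelta x = zpowersHom D' edelta y := congrArg Prod.snd h
  rw [← deg_zpowersHom x, h1, deg_zpowersHom]

/-- The isomorphism `z ↦ δ`. -/
noncomputable def iso : j1.range ≃* j2.range :=
  (MonoidHom.ofInjective j1_inj).symm.trans (MonoidHom.ofInjective j2_inj)

theorem iso_apply (m : Multiplicative ℤ) : (iso ⟨j1 m, ⟨m, rfl⟩⟩ : K) = j2 m := by
  have : (MonoidHom.ofInjective j1_inj).symm ⟨j1 m, ⟨m, rfl⟩⟩ = m := by
    rw [MulEquiv.symm_apply_eq]; rfl
  rw [iso, MulEquiv.trans_apply, this]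
  rfl

/-- The group of the example: `⟨ℤ × BS(1,2), s | s z s⁻¹ = δ⟩`. -/
abbrev Gx : Type := HNNExtension K j1.range j2.range iso

/-- The embedding of the base. -/
def io : K →* Gx := HNNExtension.of

theorem io_inj : Function.Injective io := HNNExtension.of_injective _

/-- The stable letter. -/
def s : Gx := HNNExtension.t

theorem s_conj (m : Multiplicative ℤ) : s * io (j1 m) * s⁻¹ = io (j2 m) := by
  have h := HNNExtension.equiv_eq_conj (φ := iso) ⟨j1 m, ⟨m, rfl⟩⟩
  rw [iso_apply] at h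
  exact h.symm

theorem io_sup : io.range ⊔ Subgroup.zpowers s = ⊤ := by
  rw [← top_le_iff]
  intro x _
  induction x using HNNExtension.induction_on with
  | of g => exact Subgroup.mem_sup_left ⟨g, rfl⟩
  | t => exact Subgroup.mem_sup_right (Subgroup.mem_zpowers s)
  | mul x y hx hy => exact Subgroup.mul_mem _ (hx trivial) (hy trivial)
  | inv x hx => exact Subgroup.inv_mem _ (hx trivial)

/-- The homomorphism with image `C n`. -/
def cHom' (n : ℕ) : Multiplicative (ℤ × ℤ) →* K where
  toFun p := (ofAdd p.toAdd.1, t' n ^ p.toAdd.2)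
  map_one' := by simp
  map_mul' p q := by
    simp [zpow_add]

/-- The chain of edge groups. -/
def E (n : ℕ) : Subgroup Gx := (io.comp (cHom' n)).range

theorem mem_E {n : ℕ} {x : K} : io x ∈ E n ↔ x.2 ∈ Subgroup.zpowers (t' n) := by
  constructor
  · rintro ⟨p, hp⟩
    have h1 : cHom' n p = x := io_inj hp
    rw [← h1]
    exact ⟨p.toAdd.2, rfl⟩
  · rintro ⟨j, hj⟩
    refine ⟨ofAdd (x.1.toAdd, j), ?_⟩
    rw [MonoidHom.comp_apply]
    congr 1
    exact Prod.ext rfl hj

theorem E_le (n : ℕ) : E n ≤ io.range := by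
  rintro _ ⟨p, rfl⟩
  exact ⟨_, rfl⟩

theorem slender_E (n : ℕ) : Slender (E n) := slender_range _

theorem E_lt (n : ℕ) : E n < E (n + 1) := by
  rw [SetLike.lt_iff_le_and_exists]
  constructor
  · intro g hg
    obtain ⟨x, rfl⟩ := E_le n hg
    rw [mem_E] at hg ⊢
    exact (Subgroup.zpowers_le.mpr (t'_mem n)) hg
  · refine ⟨io (1, t' (n + 1)), ?_, ?_⟩
    · rw [mem_E]
      exact Subgroup.mem_zpowers _
    · rw [mem_E]
      exact t'_not_mem n

theorem j1_mem_E (n : ℕ) (m : Multiplicative ℤ) : io (j1 m) ∈ E n := by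
  rw [mem_E]
  exact Subgroup.one_mem _

theorem infinite_E (n : ℕ) : Infinite (E n) := by
  have hinj : Function.Injective (fun z : Multiplicative ℤ =>
      (⟨io (j1 z), j1_mem_E n z⟩ : E n)) := by
    intro x y h
    exact j1_inj (io_inj (congrArg Subtype.val h))
  exact Infinite.of_injective _ hinj

/-- The base groups of the other splittings. -/
def H (n : ℕ) : Subgroup Gx := io.range ⊔ (E n).map (MulAut.conj s).toMonoidHom

theorem splits (n : ℕ) : SplitsHNN (E n) := by
  have hle : io.range ≤ H n := le_sup_left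
  have hcj : ∀ c ∈ E n, s * c * s⁻¹ ∈ H n := fun c hc =>
    Subgroup.mem_sup_right ⟨c, hc, rfl⟩
  refine splits_of (H n) (E n) s ((E_le n).trans hle) hcj ?_ ?_
  · rw [← top_le_iff, ← io_sup]
    exact sup_le_sup_right hle _
  · intro X _ f x hx
    let f' : K →* X := f.comp ((Subgroup.inclusion hle).comp io.rangeRestrict)
    have hf' : ∀ k : K, ∀ h : io k ∈ H n, f ⟨io k, h⟩ = f' k := fun k h => rfl
    let F : Gx →* X := HNNExtension.lift f' x (by
      rintro ⟨_, m, rfl⟩
      rw [iso_apply]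
      have h1 := hx (io (j1 m)) (j1_mem_E n m)
      have h2 : (⟨s * io (j1 m) * s⁻¹, hcj _ (j1_mem_E n m)⟩ : H n) =
          ⟨io (j2 m), hle ⟨_, rfl⟩⟩ := Subtype.ext (s_conj m)
      rw [h2] at h1
      exact h1)
    have hF1 : ∀ k, F (io k) = f' k := fun k => HNNExtension.lift_of _ _ _ k
    have hF2 : F s = x := HNNExtension.lift_t _ _ _
    refine ⟨F, ?_, hF2⟩
    have hle2 : H n ≤ ((F.comp (H n).subtype).eqLocus f).map (H n).subtype := by
      refine sup_le ?_ ?_
      · rintro _ ⟨k, rfl⟩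
        exact ⟨⟨io k, hle ⟨k, rfl⟩⟩, hF1 k, rfl⟩
      · rintro _ ⟨c, hc, rfl⟩
        refine ⟨⟨s * c * s⁻¹, hcj c hc⟩, ?_, rfl⟩
        change F (s * c * s⁻¹) = f ⟨s * c * s⁻¹, hcj c hc⟩
        have h1 := hx c hc
        obtain ⟨k, rfl⟩ := E_le n hc
        rw [map_mul, map_mul, map_inv, hF1, hF2]
        rw [← hf' k (hle ⟨k, rfl⟩)]
        rw [h1]
        group
    rintro ⟨a, ha⟩
    obtain ⟨b', hb', hbb⟩ := hle2 ha
    have : b' = ⟨a, ha⟩ := Subtype.ext hbb
    rw [← this]
    exact hb'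

/-- The character of the base. -/
def chi (ζ : ℂˣ) : K →* ℂˣ :=
  MonoidHom.coprod (zpowersHom ℂˣ ζ) ((zpowersHom ℂˣ ζ).comp deg)

theorem chi_j1 (ζ : ℂˣ) (m : Multiplicative ℤ) : chi ζ (j1 m) = ζ ^ m.toAdd := by
  rw [chi, MonoidHom.coprod_apply]
  change ζ ^ m.toAdd * (zpowersHom ℂˣ ζ) (deg 1) = _
  rw [map_one, map_one, mul_one]

theorem chi_j2 (ζ : ℂˣ) (m : Multiplicative ℤ) : chi ζ (j2 m) = ζ ^ m.toAdd := by
  rw [chi, MonoidHom.coprod_apply]
  change (zpowersHom ℂˣ ζ) 1 * (zpowersHom ℂˣ ζ) (deg (zpowersHom D' edelta m)) = _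
  rw [map_one, one_mul, deg_zpowersHom]
  rfl

theorem chi_iso (ζ w : ℂˣ) (a : j1.range) : w * chi ζ (a : K) = chi ζ (iso a : K) * w := by
  obtain ⟨_, m, rfl⟩ := a
  rw [iso_apply, mul_comm, chi_j2, chi_j1]

/-- The characters of `Gx`: `z` and `δ` are mapped to `ζ`, `τ` to `1` and `s` to `w`. -/
def rho (ζ w : ℂˣ) : Gx →* ℂˣ := HNNExtension.lift (chi ζ) w (chi_iso ζ w)

theorem rho_s (ζ w : ℂˣ) : rho ζ w s = w := HNNExtension.lift_t _ _ _

theorem rho_io (ζ w : ℂˣ) (k : K) : rho ζ w (io k) = chi ζ k := HNNExtension.lift_of _ _ _ k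

/-- Scalars as permutations of the complex plane. -/
def lin : ℂˣ →* Equiv.Perm ℂ := MulAction.toPermHom ℂˣ ℂ

theorem lin_apply (u : ℂˣ) (x : ℂ) : lin u x = u * x := rfl

/-- Key lemma: an HNN splitting over a subgroup killed by a character `rho ζ 2` with `ζ` a
nontrivial root of unity is impossible. -/
theorem no_split_aux (C : Subgroup Gx) (ζ : ℂˣ) (p : ℕ) (hp : p ≠ 0) (hζ : ζ ^ p = 1)
    (hζ1 : ζ ≠ 1) (w : ℂˣ) (hw : (w : ℂ) = 2) (hC : ∀ c ∈ C, rho ζ w c = 1) :
    ¬ SplitsHNN C := by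
  rintro ⟨H, B, φ, t, h, hCH, hbij⟩
  set ρ := rho ζ w with hρ
  have hB : ∀ a : C.subgroupOf H, ρ ((φ a : H) : Gx) = 1 := by
    intro a
    have h1 := congrArg ρ (h a)
    rw [map_mul, map_mul, Subgroup.coe_subtype] at h1
    have h2 : ρ ((a : H) : Gx) = 1 := hC _ a.2
    rw [h2, mul_one] at h1
    exact (mul_eq_right.mp h1.symm)
  -- generation
  have hgen : ∀ S : Subgroup Gx, H ≤ S → t ∈ S → ∀ g, g ∈ S := by
    intro S hS ht g
    obtain ⟨x, rfl⟩ := hbij.2 g
    induction x using HNNExtension.induction_on with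
    | of g => rw [HNNExtension.lift_of]; exact hS g.2
    | t => rw [HNNExtension.lift_t]; exact ht
    | mul x y hx hy => rw [map_mul]; exact S.mul_mem hx hy
    | inv x hx => rw [map_inv]; exact S.inv_mem hx
  -- the affine action
  let f : H →* Equiv.Perm ℂ := lin.comp (ρ.comp H.subtype)
  let e := MulEquiv.ofBijective (HNNExtension.lift H.subtype t h) hbij
  let Q : HNNExtension H (C.subgroupOf H) B φ →* Equiv.Perm ℂ :=
    HNNExtension.lift f (Equiv.addRight (1 : ℂ) * lin (ρ t)) (by
      intro a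
      have h1 : f (a : H) = 1 := by
        change lin (ρ ((a : H) : Gx)) = 1
        have h3 : ρ ((a : H) : Gx) = 1 := hC _ a.2
        rw [h3, map_one]
      have h2 : f (φ a : H) = 1 := by
        change lin (ρ ((φ a : H) : Gx)) = 1
        rw [hB a, map_one]
      rw [h1, h2, mul_one, one_mul])
  let F : Gx →* Equiv.Perm ℂ := Q.comp e.symm.toMonoidHom
  have hFH : ∀ (g : Gx) (hg : g ∈ H), F g = lin (ρ g) := by
    intro g hg
    have h1 : e.symm g = HNNExtension.of ⟨g, hg⟩ := by
      rw [MulEquiv.symm_apply_eq]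
      exact (HNNExtension.lift_of H.subtype t h ⟨g, hg⟩).symm
    change Q (e.symm g) = _
    rw [h1]
    exact HNNExtension.lift_of _ _ _ _
  have hFt : ∀ x, F t x = ρ t * x + 1 := by
    intro x
    have h1 : e.symm t = HNNExtension.t := by
      rw [MulEquiv.symm_apply_eq]
      exact (HNNExtension.lift_t H.subtype t h).symm
    change Q (e.symm t) x = _
    rw [h1]
    have h2 : Q HNNExtension.t = Equiv.addRight (1 : ℂ) * lin (ρ t) :=
      HNNExtension.lift_t _ _ _
    rw [h2]
    rfl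
  -- every `F g` is affine with linear part `ρ g`
  have haff : ∀ g, ∃ b : ℂ, ∀ x, F g x = ρ g * x + b := by
    let S : Subgroup Gx :=
      { carrier := {g | ∃ b : ℂ, ∀ x, F g x = ρ g * x + b}
        one_mem' := ⟨0, fun x => by simp⟩
        mul_mem' := by
          rintro g g' ⟨b, hb⟩ ⟨b', hb'⟩
          refine ⟨ρ g * b' + b, fun x => ?_⟩
          rw [map_mul, Equiv.Perm.mul_apply, hb', hb, map_mul, Units.val_mul]
          ring
        inv_mem' := by
          rintro g ⟨b, hb⟩
          refine ⟨-((ρ g : ℂ)⁻¹ * b), fun x => ?_⟩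
          rw [map_inv, Equiv.Perm.inv_eq_iff_eq, hb, map_inv, Units.val_inv_eq_inv_val]
          have h1 : (ρ g : ℂ) ≠ 0 := Units.ne_zero _
          field_simp
          ring }
    have h1 := hgen S (fun g hg => ⟨0, fun x => by rw [hFH g hg, lin_apply, add_zero]⟩)
      ⟨1, hFt⟩
    exact h1
  have huniq : ∀ g, ρ g ≠ 1 → ∀ x y, F g x = x → F g y = y → x = y := by
    intro g hg x y hx hy
    obtain ⟨b, hb⟩ := haff g
    rw [hb] at hx hy
    have h1 : ((ρ g : ℂ) - 1) * (x - y) = 0 := by linear_combination hx - hy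
    rcases mul_eq_zero.mp h1 with h2 | h2
    · exfalso
      apply hg
      apply Units.ext
      rw [Units.val_one]
      exact sub_eq_zero.mp h2
    · exact sub_eq_zero.mp h2
  -- the fixed point of `z`
  set z1 : Multiplicative ℤ := ofAdd (1 : ℤ) with hz1
  have hρz : ρ (io (j1 z1)) = ζ := by
    rw [hρ, rho_io, chi_j1]
    exact zpow_one ζ
  have hρd : ρ (io (j2 z1)) = ζ := by
    rw [hρ, rho_io, chi_j2]
    exact zpow_one ζ
  obtain ⟨a, ha⟩ : ∃ a, F (io (j1 z1)) a = a := by
    obtain ⟨b, hb⟩ := haff (io (j1 z1))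
    rw [hρz] at hb
    have h1 : (1 : ℂ) - ζ ≠ 0 := by
      intro h2
      apply hζ1
      apply Units.ext
      rw [Units.val_one]
      exact (sub_eq_zero.mp h2).symm
    refine ⟨b / (1 - ζ), ?_⟩
    rw [hb]
    field_simp
    ring
  have hK : ∀ k : K, F (io k) a = a := by
    intro k
    apply huniq (io (j1 z1)) (by rw [hρz]; exact hζ1) _ _ _ ha
    rw [← Equiv.Perm.mul_apply, ← map_mul, ← map_mul]
    have h1 : j1 z1 * k = k * j1 z1 := by
      apply Prod.ext
      · exact mul_comm _ _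
      · exact (one_mul _).trans (mul_one _).symm
    rw [h1, map_mul, map_mul, Equiv.Perm.mul_apply, ha]
  have hs : F s a = a := by
    apply huniq (io (j2 z1)) (by rw [hρd]; exact hζ1) _ _ _ (hK _)
    have h3 : (F s)⁻¹ (F s a) = a := (F s).symm_apply_apply a
    rw [← s_conj, map_mul, map_mul, map_inv, Equiv.Perm.mul_apply, Equiv.Perm.mul_apply,
      h3, ha]
  have hall : ∀ g, F g a = a := by
    intro g
    have h1 : g ∈ io.range ⊔ Subgroup.zpowers s := by rw [io_sup]; trivial
    have h2 : io.range ⊔ Subgroup.zpowers s ≤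
        (MulAction.stabilizer (Equiv.Perm ℂ) a).comap F := by
      refine sup_le ?_ ?_
      · rintro _ ⟨k, rfl⟩
        exact hK k
      · rw [Subgroup.zpowers_le]
        exact hs
    exact h2 h1
  by_cases ha0 : a = 0
  · have h1 := hall t
    rw [hFt, ha0] at h1
    simp at h1
  · have hH1 : ∀ g ∈ H, ρ g = 1 := by
      intro g hg
      have h1 := hall g
      rw [hFH g hg, lin_apply] at h1
      apply Units.ext
      rw [Units.val_one]
      exact (mul_eq_right₀ ha0).mp h1
    have hcyc : ∀ g, ρ g ∈ Subgroup.zpowers (ρ t) := by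
      have h1 := hgen ((Subgroup.zpowers (ρ t)).comap ρ) (fun g hg => by
        rw [Subgroup.mem_comap, hH1 g hg]
        exact Subgroup.one_mem _) (Subgroup.mem_zpowers _)
      exact h1
    obtain ⟨i, hi⟩ := hcyc (io (j1 z1))
    obtain ⟨j, hj⟩ := hcyc s
    rw [hρz] at hi
    have hj' : ρ s = w := rho_s ζ w
    rw [hj'] at hj
    simp only at hi hj
    have h1 : w ^ (i * p) = 1 := by
      rw [← hj, ← zpow_mul, mul_comm, zpow_mul, zpow_mul, hi, zpow_natCast, hζ, one_zpow]
    have h2 : (2 : ℂ) ^ (i * p) = 1 := by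
      rw [← hw, ← Units.val_zpow_eq_zpow_val, h1, Units.val_one]
    have h3 : i * (p : ℤ) = 0 := by
      have h4 : ‖(2 : ℂ) ^ (i * p)‖ = 1 := by rw [h2, norm_one]
      rw [norm_zpow] at h4
      have h5 : (2 : ℝ) ^ (i * (p : ℤ)) = 2 ^ (0 : ℤ) := by
        rw [zpow_zero, ← h4]
        norm_num
      exact zpow_right_injective₀ (by norm_num) (by norm_num) h5
    rcases mul_eq_zero.mp h3 with h6 | h6
    · apply hζ1
      rw [← hi, h6, zpow_zero]
    · exact hp (by exact_mod_cast h6)

theorem no_split (C : Subgroup Gx) (hC : C < E 0) : ¬ SplitsHNN C := by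
  have hE0 : ∀ c ∈ E 0, ∃ m : ℤ, c = io (j1 (ofAdd m)) := by
    rintro c ⟨p, rfl⟩
    refine ⟨p.toAdd.1, ?_⟩
    rw [MonoidHom.comp_apply]
    congr 1
    exact Prod.ext rfl (one_zpow _)
  -- the set of exponents
  let J : AddSubgroup ℤ :=
    { carrier := {m | io (j1 (ofAdd m)) ∈ C}
      zero_mem' := by
        change io (j1 (ofAdd 0)) ∈ C
        rw [ofAdd_zero, map_one, map_one]; exact C.one_mem
      add_mem' := by
        intro a b ha hb
        change io (j1 (ofAdd (a + b))) ∈ C
        rw [ofAdd_add, map_mul, map_mul]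
        exact C.mul_mem ha hb
      neg_mem' := by
        intro a ha
        change io (j1 (ofAdd (-a))) ∈ C
        rw [ofAdd_neg, map_inv, map_inv]
        exact C.inv_mem ha }
  obtain ⟨k, hk⟩ := Int.subgroup_cyclic J
  have hk1 : k.natAbs ≠ 1 := by
    intro h1
    apply hC.not_ge
    intro c hc
    obtain ⟨m, rfl⟩ := hE0 c hc
    have h2 : m ∈ J := by
      rw [hk, AddSubgroup.mem_closure_singleton]
      rcases Int.natAbs_eq k with h3 | h3
      · exact ⟨m, by rw [h3, h1]; simp⟩
      · exact ⟨-m, by rw [h3, h1]; simp⟩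
    exact h2
  obtain ⟨p, hp, hpk⟩ := Nat.exists_prime_and_dvd hk1
  have hprim := Complex.isPrimitiveRoot_exp p hp.ne_zero
  set ζ0 := Complex.exp (2 * Real.pi * Complex.I / p) with hζ0
  let ζ : ℂˣ := Units.mk0 ζ0 (Complex.exp_ne_zero _)
  let w : ℂˣ := Units.mk0 2 (by norm_num)
  have hζp : ζ ^ p = 1 := by
    apply Units.ext
    rw [Units.val_pow_eq_pow_val, Units.val_one]
    exact hprim.pow_eq_one
  have hζ1 : ζ ≠ 1 := by
    intro h1
    exact hprim.ne_one hp.one_lt (congrArg Units.val h1)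
  refine no_split_aux C ζ p hp.ne_zero hζp hζ1 w rfl ?_
  intro c hc
  obtain ⟨m, rfl⟩ := hE0 c (hC.le hc)
  have h1 : m ∈ J := hc
  rw [hk, AddSubgroup.mem_closure_singleton] at h1
  obtain ⟨n, hn⟩ := h1
  have h2 : (p : ℤ) ∣ m := by
    rw [← hn]
    exact Dvd.dvd.mul_left (Int.natCast_dvd.mpr hpk) n
  obtain ⟨q, hq⟩ := h2
  rw [rho_io, chi_j1, toAdd_ofAdd, hq, zpow_mul, zpow_natCast, hζp, one_zpow]

theorem fg_Gx : Group.FG Gx := by
  have hD : Group.FG D' := (Group.fg_iff_subgroup_fg _).mpr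
    ((Subgroup.fg_iff _).mpr ⟨{(tau, 1), (delta, ofAdd 1)}, rfl, by simp⟩)
  have hK : Group.FG K := inferInstance
  obtain ⟨S, hS, hfin⟩ := Group.fg_iff.mp hK
  refine Group.fg_iff.mpr ⟨io '' S ∪ {s}, ?_, (hfin.image _).union (Set.finite_singleton _)⟩
  rw [Subgroup.closure_union, ← MonoidHom.map_closure, hS, ← MonoidHom.range_eq_map,
    ← Subgroup.zpowers_eq_closure]
  exact io_sup

end Example

/-- Negative answer to Q2: there are a finitely generated group `G` and a strictly ascending chain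
`C n` of infinite slender subgroups such that `G` splits as an HNN extension over each `C n`, but
over no subgroup `C'` which is properly contained in all the `C n`. -/
theorem result :
    ∃ (G : Type) (_ : Group G) (C : ℕ → Subgroup G),
      Group.FG G ∧
      (∀ n, SplitsHNN (C n)) ∧
      (∀ n, Slender (C n)) ∧
      (∀ n, Infinite (C n)) ∧
      (∀ n, C n < C (n + 1)) ∧
      ¬ ∃ C' : Subgroup G, SplitsHNN C' ∧ ∀ n, C' < C n :=
  ⟨Gx, inferInstance, E, fg_Gx, splits, slender_E, infinite_E, E_lt,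
    fun ⟨C', h, hlt⟩ => no_split C' (hlt 0) h⟩

end Pool.Agent.Results.MP_4681e4_al.AscendingHNN
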